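import Pool.Agent.Helper401.ENV.Dom
import Pool.Agent.Helper401.ENV.Final

/-!
A bounded domain with smooth boundary in `ℂ^5` whose envelope of holomorphy is not finitely
sheeted.
-/

set_option autoImplicit false

open Pool.Agent.Helper401.ENV

/-- There is a bounded domain `D` in `ℂ^5` with smooth boundary such that the envelope of
holomorphy `π : Y → ℂ^5` of `D` exists and, for every `N`, has a fibre with more than `N` points. -/
theorem Pool.Agent.Results.MP_4cae09_an.Sheets.result :
    ∃ D : Set (Fin 5 → ℂ), IsOpen D ∧ IsConnected D ∧ Bornology.IsBounded D ∧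
      SmoothBoundary D ∧ (∃ (Y : RDom 5) (ι : D → Y.X), IsEnvelope D Y ι) ∧
      ∀ (Y : RDom 5) (ι : D → Y.X), IsEnvelope D Y ι →
        ∀ N : ℕ, ∃ p : Fin 5 → ℂ, (N : ℕ∞) < (Y.π ⁻¹' {p}).encard :=
  Final.final
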